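import Pool.Agent.R320.KL.Nk
import Pool.Agent.R320.JL.Conv

/-! # The joint law of the counts near a zero, unconditionally -/

set_option autoImplicit false

namespace Pool.Agent.R320.PC

open Filter Topology MeasureTheory Set ProbabilityTheory
open SG (ord NZ)
open Pool.Agent.Y743.CL (lm log_nat bigT)
open Pool.Agent.R320.JL
open Pool.Agent.R320.KL
open scoped NNReal

noncomputable section

/-- **convergence of empirical laws, bounded test functions** -/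
theorem lvb (x : ℕ → ℕ → ℝ) (N : ℕ → ℕ) (hN : ∀ m, 1 ≤ N m) (v : ℝ≥0)
    (hcf : ∀ ξ : ℝ, Tendsto (fun m => ((N m : ℝ)⁻¹) • ∑ n ∈ Finset.Icc 1 (N m),
      Complex.exp (Complex.I * ((ξ * x m n : ℝ) : ℂ))) atTop
      (𝓝 (Real.exp (-(ξ ^ 2 * v / 2)) : ℂ)))
    (f : ℝ → ℝ) (hf : Continuous f) (A : ℝ) (hfA : ∀ x, |f x| ≤ A) :
    Tendsto (fun m => ((N m : ℝ)⁻¹) * ∑ n ∈ Finset.Icc 1 (N m), f (x m n)) atTop
      (𝓝 (∫ y, f y ∂(gaussianReal 0 v))) := by
  let μ : ℕ → ProbabilityMeasure ℝ := fun m => ⟨emp (N m) (x m), emp_prob (hN m) (x m)⟩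
  let μ₀ : ProbabilityMeasure ℝ := ⟨gaussianReal 0 v, inferInstance⟩
  have hw : Tendsto μ atTop (𝓝 μ₀) := by
    rw [ProbabilityMeasure.tendsto_iff_tendsto_charFun]
    intro ξ
    have h1 : ∀ m, charFun (μ m : Measure ℝ) ξ = ((N m : ℝ)⁻¹) • ∑ n ∈ Finset.Icc 1 (N m),
        Complex.exp (Complex.I * ((ξ * x m n : ℝ) : ℂ)) := by
      intro m
      rw [charFun_apply_real]
      show ∫ y, Complex.exp (ξ * y * Complex.I) ∂(emp (N m) (x m)) = _
      rw [emp_int]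
      congr 1
      refine Finset.sum_congr rfl fun n _ => ?_
      congr 1
      push_cast
      ring
    have h2 : charFun (μ₀ : Measure ℝ) ξ = (Real.exp (-(ξ ^ 2 * v / 2)) : ℂ) := by
      show charFun (gaussianReal 0 v) ξ = _
      rw [charFun_gaussianReal]
      push_cast
      congr 1
      ring
    rw [h2]
    refine (hcf ξ).congr fun m => (h1 m).symm
  rw [ProbabilityMeasure.tendsto_iff_forall_integral_tendsto] at hw
  have h3 := hw (BoundedContinuousFunction.ofNormedAddCommGroup f hf A hfA)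
  refine h3.congr fun m => ?_
  show ∫ y, f y ∂(emp (N m) (x m)) = _
  rw [emp_int, smul_eq_mul]

/-- continuity of the Gaussian expectation in the variance -/
lemma gau_contb (f : ℝ → ℝ) (hf : Continuous f) (A : ℝ)
    (hfA : ∀ x, |f x| ≤ A) (V : ℕ → ℝ≥0) (v : ℝ≥0) (hV : Tendsto V atTop (𝓝 v)) :
    Tendsto (fun m => ∫ x, f x ∂(gaussianReal 0 (V m))) atTop (𝓝 (∫ x, f x ∂(gaussianReal 0 v))) :=
  gau_cont f hf A 0 (fun x => by rw [pow_zero, mul_one]; exact hfA x) V v hV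

theorem lawC {k : ℕ} (c : Fin k → ℝ) (B : ℝ) (hB : 1 ≤ B) (f : ℝ → ℝ) (hf : Continuous f) (A : ℝ)
    (hfA : ∀ x, |f x| ≤ A) (ε : ℝ) (hε : 0 < ε) :
    ∀ᶠ M : ℕ in atTop, ∀ T : ℝ, 1 ≤ T → ((2 * M : ℕ) : ℝ) * Real.log (2 * M : ℕ) ≤ B * Real.log T →
    ∀ u : Fin k → ℝ, (∀ i, |u i| ≤ M - 1) →
    |((NZ T : ℝ)⁻¹) * ∑ n ∈ Finset.Icc 1 (NZ T), f (fc c (2 * M) T u n) -
      ∫ x, f x ∂(gaussianReal 0 (QR c u / Real.log ((2 * M : ℕ) : ℝ)).toNNReal)| ≤ ε := by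
  obtain ⟨c0, T0, hc0, hT0, hlow⟩ := NZ_ge
  have hlogt : Tendsto (fun m : ℕ => Real.log ((2 * m : ℕ) : ℝ)) atTop atTop := log_nat.comp two_top
  by_contra hcon
  rw [not_eventually] at hcon
  have hcon2 := hcon.and_eventually ((hlogt.eventually_ge_atTop 1).and
    ((two_top.eventually (bigT B hB T0)).and (eventually_ge_atTop 2)))
  obtain ⟨φ, hφ, hall⟩ := extraction_of_frequently_atTop hcon2
  have hall' : ∀ m, ∃ T : ℝ, 1 ≤ T ∧ ((2 * φ m : ℕ) : ℝ) * Real.log (2 * φ m : ℕ) ≤ B * Real.log T ∧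
      ∃ u : Fin k → ℝ, (∀ i, |u i| ≤ φ m - 1) ∧
      ε < |((NZ T : ℝ)⁻¹) * ∑ n ∈ Finset.Icc 1 (NZ T), f (fc c (2 * φ m) T u n) -
      ∫ x, f x ∂(gaussianReal 0 (QR c u / Real.log ((2 * φ m : ℕ) : ℝ)).toNNReal)| := by
    intro m
    have h1 := (hall m).1
    push Not at h1
    exact h1
  choose T hT1 hrT u hu hlt using hall'
  have hlog : ∀ m, 1 ≤ Real.log ((2 * φ m : ℕ) : ℝ) := fun m => (hall m).2.1
  have hTT0 : ∀ m, T0 ≤ T m := fun m => (hall m).2.2.1 (T m) (hT1 m) (hrT m)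
  have hφ2 : ∀ m, 2 ≤ φ m := fun m => (hall m).2.2.2
  have hNpos : ∀ m, 1 ≤ NZ (T m) := by
    intro m
    have h1 := hlow (T m) (hTT0 m)
    have h2 : 0 < Real.log (T m) := Real.log_pos (by linarith [hTT0 m])
    have h3 : 0 < T m := by linarith [hTT0 m]
    have h4 : (0 : ℝ) < NZ (T m) := lt_of_lt_of_le (by positivity) h1
    exact_mod_cast h4
  obtain ⟨v, hv⟩ : ∃ v : ℕ → Fin k → ℤ, v = fun m i => ⌊u m i⌋ := ⟨_, rfl⟩
  have hvr : ∀ m i, -(φ m : ℤ) < v m i ∧ v m i ≤ φ m := by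
    intro m i
    rw [hv]
    show -(φ m : ℤ) < ⌊u m i⌋ ∧ ⌊u m i⌋ ≤ φ m
    obtain ⟨a1, a2⟩ := abs_le.1 (hu m i)
    constructor
    · have : (-(φ m : ℤ) + 1 : ℤ) ≤ ⌊u m i⌋ := by
        rw [Int.le_floor]
        push_cast
        linarith
      omega
    · have : (⌊u m i⌋ : ℝ) ≤ φ m := (Int.floor_le _).trans (by linarith)
      exact_mod_cast this
  obtain ⟨Bd, hBd⟩ : ∃ Bd : ℝ, Bd = (∑ i, |c1 c i|) ^ 2 * (3 / 2) := ⟨_, rfl⟩
  have hQB : ∀ m, QQ (c1 c) (2 * φ m) (b1 (φ m) (v m)) ∈ Icc (-Bd) Bd := by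
    intro m
    have := abs_le.1 (QQ_bd (c1 c) (hlog m) (b1 (φ m) (v m)) (b1_rng (by have := hφ2 m; omega) (hvr m)))
    rw [← hBd] at this
    exact ⟨this.1, this.2⟩
  obtain ⟨V, -, ψ, hψ, hlim⟩ := isCompact_Icc.tendsto_subseq hQB
  have hφψ : Tendsto (fun m => φ (ψ m)) atTop atTop := hφ.tendsto_atTop.comp hψ.tendsto_atTop
  have hlim' : Tendsto (fun m => QQ (c1 c) (2 * φ (ψ m)) (b1 (φ (ψ m)) (v (ψ m)))) atTop (𝓝 V) := hlim
  have hlogψ : Tendsto (fun m => Real.log ((2 * φ (ψ m) : ℕ) : ℝ)) atTop atTop := hlogt.comp hφψ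
  -- the real version has the same limit
  have hlimR : Tendsto (fun m => QR c (u (ψ m)) / Real.log ((2 * φ (ψ m) : ℕ) : ℝ)) atTop (𝓝 V) := by
    have h1 : Tendsto (fun m => QR c (u (ψ m)) / Real.log ((2 * φ (ψ m) : ℕ) : ℝ) -
        QQ (c1 c) (2 * φ (ψ m)) (b1 (φ (ψ m)) (v (ψ m)))) atTop (𝓝 0) := by
      have h2 : Tendsto (fun m => (∑ i, |c i|) ^ 2 * (3 / 2) / Real.log ((2 * φ (ψ m) : ℕ) : ℝ)) atTop (𝓝 0) :=
        tendsto_const_nhds.div_atTop hlogψ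
      refine squeeze_zero_norm (fun m => ?_) h2
      rw [Real.norm_eq_abs, abs_sub_comm, hv]
      exact QQ_QR c (by linarith [hlog (ψ m)]) (hu (ψ m))
    have h3 := h1.add hlim'
    rw [zero_add] at h3
    refine h3.congr fun m => ?_
    ring
  -- the characteristic functions
  have hc1 : ∀ ξ : ℝ, c1 (fun i => ξ * c i) = fun i => ξ * c1 c i := by
    intro ξ
    funext i
    refine Fin.cases ?_ (fun j => ?_) i
    · simp only [c1, Fin.cons_zero]
      rw [← Finset.mul_sum]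
      ring
    · simp only [c1, Fin.cons_succ]
  have hcf0 : ∀ ξ : ℝ, Tendsto (fun m => ((NZ (T (ψ m)) : ℝ)⁻¹) • ∑ n ∈ Finset.Icc 1 (NZ (T (ψ m))),
      Complex.exp (Complex.I * ((ξ * fc c (2 * φ (ψ m)) (T (ψ m)) (u (ψ m)) n : ℝ) : ℂ)) -
      (Real.exp (-(ξ ^ 2 * QQ (c1 c) (2 * φ (ψ m)) (b1 (φ (ψ m)) (v (ψ m))) / 2)) : ℂ)) atTop (𝓝 0) := by
    intro ξ
    rw [Metric.tendsto_atTop]
    intro η hη
    have hj := jointC (fun i => ξ * c i) B hB (η / 2 * c0) (by positivity)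
    obtain ⟨m0, hm0⟩ := eventually_atTop.1 (hφψ.eventually hj)
    refine ⟨m0, fun m hm => ?_⟩
    have h1 := hm0 m hm (T (ψ m)) (hT1 _) (hrT _) (u (ψ m)) (hu _)
    have hNp : (0 : ℝ) < NZ (T (ψ m)) := by exact_mod_cast hNpos (ψ m)
    rw [dist_zero_right]
    have e : ((NZ (T (ψ m)) : ℝ)⁻¹) • ∑ n ∈ Finset.Icc 1 (NZ (T (ψ m))),
        Complex.exp (Complex.I * ((ξ * fc c (2 * φ (ψ m)) (T (ψ m)) (u (ψ m)) n : ℝ) : ℂ)) -
        (Real.exp (-(ξ ^ 2 * QQ (c1 c) (2 * φ (ψ m)) (b1 (φ (ψ m)) (v (ψ m))) / 2)) : ℂ) =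
        ((NZ (T (ψ m)) : ℝ)⁻¹) • ∑ n ∈ Finset.Icc 1 (NZ (T (ψ m))),
          (Complex.exp (Complex.I * (fc (fun i => ξ * c i) (2 * φ (ψ m)) (T (ψ m)) (u (ψ m)) n : ℂ)) -
          (Real.exp (-(QQ (c1 (fun i => ξ * c i)) (2 * φ (ψ m)) (b1 (φ (ψ m)) (fun i => ⌊u (ψ m) i⌋)) / 2)) : ℂ)) := by
      rw [Finset.sum_sub_distrib, smul_sub, Finset.sum_const, Nat.card_Icc, Nat.add_sub_cancel]
      congr 1
      · congr 1
        refine Finset.sum_congr rfl fun n _ => ?_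
        have : fc (fun i => ξ * c i) (2 * φ (ψ m)) (T (ψ m)) (u (ψ m)) n =
            ξ * fc c (2 * φ (ψ m)) (T (ψ m)) (u (ψ m)) n := by
          unfold fc
          rw [mul_div_assoc', Finset.mul_sum]
          congr 1
          refine Finset.sum_congr rfl fun i _ => ?_
          ring
        rw [this]
      · have hQ : QQ (c1 (fun i => ξ * c i)) (2 * φ (ψ m)) (b1 (φ (ψ m)) (fun i => ⌊u (ψ m) i⌋)) =
            ξ ^ 2 * QQ (c1 c) (2 * φ (ψ m)) (b1 (φ (ψ m)) (v (ψ m))) := by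
          rw [hc1, hv]
          unfold QQ
          rw [Finset.mul_sum]
          refine Finset.sum_congr rfl fun i _ => ?_
          rw [Finset.mul_sum]
          refine Finset.sum_congr rfl fun j _ => ?_
          ring
        rw [hQ, Complex.real_smul, nsmul_eq_mul, Complex.ofReal_inv, Complex.ofReal_natCast,
          inv_mul_cancel_left₀]
        exact_mod_cast hNp.ne'
    rw [e, norm_smul, Real.norm_of_nonneg (by positivity), inv_mul_lt_iff₀ hNp]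
    refine lt_of_le_of_lt h1 ?_
    have h2 := hlow (T (ψ m)) (hTT0 _)
    have h3 : η / 2 * c0 * (T (ψ m) * Real.log (T (ψ m))) ≤ η / 2 * NZ (T (ψ m)) := by
      rw [mul_assoc]
      exact mul_le_mul_of_nonneg_left h2 (by linarith)
    have h4 : η / 2 * (NZ (T (ψ m)) : ℝ) < NZ (T (ψ m)) * η := by nlinarith
    linarith
  have hcf1 : ∀ ξ : ℝ, Tendsto (fun m => ((NZ (T (ψ m)) : ℝ)⁻¹) • ∑ n ∈ Finset.Icc 1 (NZ (T (ψ m))),
      Complex.exp (Complex.I * ((ξ * fc c (2 * φ (ψ m)) (T (ψ m)) (u (ψ m)) n : ℝ) : ℂ))) atTop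
      (𝓝 (Real.exp (-(ξ ^ 2 * V / 2)) : ℂ)) := by
    intro ξ
    have h1 : Tendsto (fun m => (Real.exp (-(ξ ^ 2 * QQ (c1 c) (2 * φ (ψ m)) (b1 (φ (ψ m)) (v (ψ m))) / 2)) : ℂ))
        atTop (𝓝 (Real.exp (-(ξ ^ 2 * V / 2)) : ℂ)) := by
      refine (Complex.continuous_ofReal.tendsto _).comp ?_
      refine (Real.continuous_exp.tendsto _).comp ?_
      exact ((hlim'.const_mul (ξ ^ 2)).div_const 2).neg
    have h2 := (hcf0 ξ).add h1
    rw [zero_add] at h2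
    refine h2.congr fun m => ?_
    ring
  -- the limit variance is nonnegative
  have hv0 : 0 ≤ V := by
    have h1 := (hcf1 1).norm
    have h2 : ‖(Real.exp (-((1 : ℝ) ^ 2 * V / 2)) : ℂ)‖ ≤ 1 := by
      refine le_of_tendsto h1 (Eventually.of_forall fun m => ?_)
      have hNp : (0 : ℝ) < NZ (T (ψ m)) := by exact_mod_cast hNpos (ψ m)
      rw [norm_smul, Real.norm_of_nonneg (by positivity), inv_mul_le_iff₀ hNp, mul_one]
      refine (norm_sum_le _ _).trans ?_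
      have h3 : ∀ n ∈ Finset.Icc 1 (NZ (T (ψ m))),
          ‖Complex.exp (Complex.I * ((1 * fc c (2 * φ (ψ m)) (T (ψ m)) (u (ψ m)) n : ℝ) : ℂ))‖ ≤ 1 := by
        intro n _
        rw [mul_comm, Complex.norm_exp_ofReal_mul_I]
      refine (Finset.sum_le_sum h3).trans ?_
      rw [Finset.sum_const, Nat.card_Icc, Nat.add_sub_cancel, nsmul_eq_mul, mul_one]
    rw [Complex.norm_real, Real.norm_of_nonneg (Real.exp_pos _).le] at h2
    have h3 := Real.exp_le_one_iff.1 h2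
    linarith
  obtain ⟨v', hv'⟩ : ∃ v' : ℝ≥0, v' = V.toNNReal := ⟨_, rfl⟩
  have hvv : (v' : ℝ) = V := by rw [hv']; exact Real.coe_toNNReal V hv0
  have hL := lvb (fun m n => fc c (2 * φ (ψ m)) (T (ψ m)) (u (ψ m)) n) (fun m => NZ (T (ψ m)))
    (fun m => hNpos _) v' (fun ξ => by rw [hvv]; exact hcf1 ξ) f hf A hfA
  have hG := gau_contb f hf A hfA
    (fun m => (QR c (u (ψ m)) / Real.log ((2 * φ (ψ m) : ℕ) : ℝ)).toNNReal) v'
    (by rw [hv']; exact (continuous_real_toNNReal.tendsto V).comp hlimR)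
  have hD := (hL.sub hG).abs
  rw [sub_self, abs_zero] at hD
  obtain ⟨m, hm⟩ := (hD.eventually_lt_const hε).exists
  have h5 := hlt (ψ m)
  linarith

/-- the signs -/
def cW {k : ℕ} (c : Fin k → ℝ) : Fin (k + k) → ℝ := Fin.append c (fun j => -c j)

lemma fc_cW {k : ℕ} (c : Fin k → ℝ) (r : ℕ) (T : ℝ) (x y : Fin k → ℝ) (n : ℕ) :
    fc (cW c) r T (Fin.append y x) n = (∑ j, c j * WW T (x j) (y j) n) / lm r := by
  unfold fc cW
  rw [Fin.sum_univ_add]
  simp only [Fin.append_left, Fin.append_right]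
  rw [← Finset.sum_add_distrib]
  congr 1
  refine Finset.sum_congr rfl fun j _ => ?_
  unfold XX WW
  ring

lemma QR_cW {k : ℕ} (c : Fin k → ℝ) (x y : Fin k → ℝ) :
    QR (cW c) (Fin.append y x) = ∑ i, ∑ j, c i * c j * KR (x i) (y i) (x j) (y j) := by
  have hs : ∀ (f : Fin (k + k) → ℝ), ∑ b, cW c b * f b =
      ∑ j, c j * (f (Fin.castAdd k j) - f (Fin.natAdd k j)) := by
    intro f
    unfold cW
    rw [Fin.sum_univ_add]
    simp only [Fin.append_left, Fin.append_right]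
    rw [← Finset.sum_add_distrib]
    refine Finset.sum_congr rfl fun j _ => ?_
    ring
  unfold QR
  have h1 : ∀ a, ∑ b, cW c a * cW c b * (lp (Fin.append y x a) + lp (Fin.append y x b) -
      lp (Fin.append y x a - Fin.append y x b)) = cW c a * ∑ b, cW c b *
        (lp (Fin.append y x a) + lp (Fin.append y x b) - lp (Fin.append y x a - Fin.append y x b)) := by
    intro a
    rw [Finset.mul_sum]
    refine Finset.sum_congr rfl fun b _ => ?_
    ring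
  simp only [h1]
  rw [hs]
  simp only [hs, Fin.append_left, Fin.append_right]
  rw [Finset.sum_div]
  refine Finset.sum_congr rfl fun i _ => ?_
  rw [← Finset.sum_sub_distrib, mul_div_assoc, Finset.sum_div, Finset.mul_sum]
  refine Finset.sum_congr rfl fun j _ => ?_
  unfold KR
  ring

end

end Pool.Agent.R320.PC
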